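import Pool.Agent.Helper69.VFX.Hall

/-!
# Derivations and the rank (MP_266b34_co, project VF, L10)
-/

set_option autoImplicit false

open scoped Classical

namespace Pool.Agent.Helper69.VFX

universe u

section der
variable {G : Type*} [Group G] {M : Type*} [AddCommGroup M] [DistribMulAction G M]

/-- derivations (crossed homomorphisms) -/
def IsDer (f : G → M) : Prop := ∀ a b, f (a * b) = f a + a • f b

theorem IsDer.one {f : G → M} (hf : IsDer f) : f 1 = 0 := by
  have h := hf 1 1
  rw [mul_one, one_smul] at h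
  simpa using h

theorem IsDer.inv {f : G → M} (hf : IsDer f) (g : G) : f g⁻¹ = - (g⁻¹ • f g) := by
  have h := hf g⁻¹ g
  rw [inv_mul_cancel, hf.one] at h
  exact eq_neg_of_add_eq_zero_left h.symm

theorem IsDer.ext {ι : Type*} (e : FreeGroup ι ≃* G) {f f' : G → M} (hf : IsDer f) (hf' : IsDer f')
    (h : ∀ i, f (e (FreeGroup.of i)) = f' (e (FreeGroup.of i))) : f = f' := by
  have key : ∀ z : FreeGroup ι, f (e z) = f' (e z) := by
    intro z
    induction z using FreeGroup.induction_on with
    | C1 => rw [map_one, hf.one, hf'.one]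
    | of x => exact h x
    | inv_of x ih =>
      rw [map_inv, hf.inv, hf'.inv, ih]
    | mul x y hx hy => rw [map_mul, hf, hf', hx, hy]
  funext g
  have := key (e.symm g)
  simpa using this

/-- the affine map of a generator -/
def sig {ι : Type*} (e : FreeGroup ι ≃* G) (φ : ι → M) (i : ι) : Equiv.Perm M where
  toFun x := e (FreeGroup.of i) • x + φ i
  invFun y := (e (FreeGroup.of i))⁻¹ • (y - φ i)
  left_inv x := by simp
  right_inv y := by simp

theorem exists_der {ι : Type*} (e : FreeGroup ι ≃* G) (φ : ι → M) :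
    ∃ f : G → M, IsDer f ∧ ∀ i, f (e (FreeGroup.of i)) = φ i := by
  set Φ : FreeGroup ι →* Equiv.Perm M := FreeGroup.lift (sig e φ) with hΦ
  have key : ∀ z : FreeGroup ι, ∀ x : M, Φ z x = e z • x + Φ z 0 := by
    intro z
    induction z using FreeGroup.induction_on with
    | C1 => intro x; simp
    | of i =>
      intro x
      have h1 : Φ (FreeGroup.of i) = sig e φ i := by
        show FreeGroup.lift (sig e φ) (FreeGroup.of i) = _
        simp
      rw [h1]
      show e (FreeGroup.of i) • x + φ i = e (FreeGroup.of i) • x + (e (FreeGroup.of i) • (0 : M) + φ i)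
      rw [smul_zero, zero_add]
    | inv_of i ih =>
      intro x
      rw [map_inv, map_inv]
      have h2 : ∀ y : M, (Φ (FreeGroup.of i))⁻¹ y
          = (e (FreeGroup.of i))⁻¹ • (y - Φ (FreeGroup.of i) 0) := by
        intro y
        rw [Equiv.Perm.inv_eq_iff_eq, ih]
        simp
      rw [h2, h2 0]
      simp [smul_sub, sub_eq_add_neg]
    | mul y z hy hz =>
      intro x
      rw [map_mul, map_mul, Equiv.Perm.mul_apply, Equiv.Perm.mul_apply, hz x, hy (e z • x + Φ z 0),
        hy (Φ z 0), smul_add, mul_smul, add_assoc]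
  refine ⟨fun g => Φ (e.symm g) 0, ?_, ?_⟩
  · intro a b
    show Φ (e.symm (a * b)) 0 = Φ (e.symm a) 0 + a • Φ (e.symm b) 0
    rw [map_mul, map_mul, Equiv.Perm.mul_apply, key (e.symm a) (Φ (e.symm b) 0)]
    simp [add_comm]
  · intro i
    show Φ (e.symm (e (FreeGroup.of i))) 0 = φ i
    rw [MulEquiv.symm_apply_apply]
    have h1 : Φ (FreeGroup.of i) = sig e φ i := by
      rw [hΦ]; simp
    rw [h1]
    show e (FreeGroup.of i) • (0 : M) + φ i = φ i
    simp

end der

/-- functions to `ZMod 2`, with the action by translation -/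
def MM (X : Type u) : Type u := X → ZMod 2

instance (X : Type u) : AddCommGroup (MM X) := inferInstanceAs (AddCommGroup (X → ZMod 2))

instance (X : Type u) [Finite X] : Finite (MM X) := inferInstanceAs (Finite (X → ZMod 2))

instance (G X : Type u) [Group G] [MulAction G X] : DistribMulAction G (MM X) where
  smul g f := fun x => f (g⁻¹ • x)
  one_smul f := by
    funext x
    show f ((1 : G)⁻¹ • x) = f x
    simp
  mul_smul g h f := by
    funext x
    show f ((g * h)⁻¹ • x) = f (h⁻¹ • (g⁻¹ • x))
    rw [mul_inv_rev, mul_smul]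
  smul_zero g := rfl
  smul_add g f f' := rfl

theorem MM.smul_apply {G X : Type u} [Group G] [MulAction G X] (g : G) (f : MM X) (x : X) :
    (g • f) x = f (g⁻¹ • x) := rfl

/-- the hypothesis: every derivation of `B` extends to `A` (finite modules) -/
def Ext (A : Type u) [Group A] (B : Subgroup A) : Prop :=
  ∀ (M : Type u) [AddCommGroup M] [DistribMulAction A M] [Finite M] (f : B → M),
    (∀ b b' : B, f (b * b') = f b + (b : A) • f b') →
    ∃ F : A → M, (∀ a a' : A, F (a * a') = F a + a • F a') ∧ ∀ b : B, F b = f b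

section main
variable {A : Type u} [Group A] {m : ℕ} (e : FreeGroup (Fin m) ≃* A) (B : Subgroup A)
  {ι : Type u} (e' : FreeGroup ι ≃* B)
  (M : Type u) [AddCommGroup M] [DistribMulAction A M]

/-- restriction in coordinates -/
noncomputable def psi (φ : Fin m → M) : ι → M :=
  fun i => (exists_der e φ).choose (e' (FreeGroup.of i) : A)

theorem psi_of_der (F : A → M) (hF : IsDer F) :
    psi e B e' M (fun i => F (e (FreeGroup.of i))) = fun i => F (e' (FreeGroup.of i) : A) := by
  have h := (exists_der (M := M) e (fun i => F (e (FreeGroup.of i)))).choose_spec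
  have h1 : (exists_der (M := M) e (fun i => F (e (FreeGroup.of i)))).choose = F :=
    IsDer.ext e h.1 hF h.2
  unfold psi
  rw [h1]

theorem psi_surj [Finite M] (H : Ext A B) : Function.Surjective (psi e B e' M) := by
  intro χ
  obtain ⟨f, hf, hf'⟩ := exists_der (G := B) (M := M) e' χ
  obtain ⟨F, hF, hF'⟩ := H M f (fun b b' => hf b b')
  refine ⟨fun i => F (e (FreeGroup.of i)), ?_⟩
  rw [psi_of_der e B e' M F hF]
  funext i
  rw [hF', hf']

end main

/-- **L10.** -/
theorem rank_lt {A : Type u} [Group A] {m : ℕ} (e : FreeGroup (Fin m) ≃* A) (B : Subgroup A)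
    (hB : B ≠ ⊤) (H : Ext A B) : ∃ n, n < m ∧ Nonempty (FreeGroup (Fin n) ≃* B) := by
  have : IsFreeGroup A := IsFreeGroup.ofMulEquiv e
  have hfree : IsFreeGroup B := subgroupIsFreeOfIsFree B
  set ι := IsFreeGroup.Generators B with hι
  let e' : FreeGroup ι ≃* B := (IsFreeGroup.toFreeGroup B).symm
  -- the rank of `B` is at most `m`
  have hs := psi_surj e B e' (MM PUnit.{u+1}) H
  have hfinM : Finite (ι → MM PUnit.{u+1}) := Finite.of_surjective _ hs
  have hnt : Nontrivial (MM PUnit.{u+1}) := inferInstanceAs (Nontrivial (PUnit.{u+1} → ZMod 2))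
  have hι' : Finite ι := by
    by_contra hinf
    rw [not_finite_iff_infinite] at hinf
    exact (not_finite_iff_infinite.2 (Pi.infinite_of_left (ι := ι) (π := fun _ => MM PUnit.{u+1}))) hfinM
  have := Fintype.ofFinite ι
  have hcM : Nat.card (MM PUnit.{u+1}) = 2 := by
    show Nat.card (PUnit.{u+1} → ZMod 2) = 2
    simp
  have hcard : Fintype.card ι ≤ m := by
    have h1 := Nat.card_le_card_of_surjective _ hs
    rw [Nat.card_fun, Nat.card_fun, hcM, Nat.card_eq_fintype_card, Nat.card_eq_fintype_card,
      Fintype.card_fin] at h1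
    exact (Nat.pow_le_pow_iff_right (by norm_num)).1 h1
  have hBe : Nonempty (FreeGroup (Fin (Fintype.card ι)) ≃* B) :=
    ⟨(FreeGroup.freeGroupCongr (Fintype.equivFin ι).symm).trans e'⟩
  refine ⟨Fintype.card ι, lt_of_le_of_ne hcard ?_, hBe⟩
  intro heq
  -- `B` is finitely generated; M. Hall
  have hfg : Group.FG B := by
    have h1 : Group.FG (FreeGroup ι) := inferInstance
    exact Group.fg_of_surjective (f := e'.toMonoidHom) e'.surjective
  obtain ⟨a, ha⟩ : ∃ a : A, a ∉ B := by
    by_contra h
    push Not at h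
    exact hB ((Subgroup.eq_top_iff' B).2 h)
  obtain ⟨L0, hL1, hL2, hL3⟩ := hall (B.comap e.toMonoidHom)
    ((Group.fg_iff_subgroup_fg _).1 (by
      have h2 : (B.comap e.toMonoidHom) ≃* B := (e.subgroupMap _).trans (MulEquiv.subgroupCongr (by
        ext x
        simp only [Subgroup.mem_map, Subgroup.mem_comap]
        constructor
        · rintro ⟨y, hy, rfl⟩; exact hy
        · intro h; exact ⟨e.symm x, by simpa using h, by simp⟩))
      exact Group.fg_of_surjective (f := h2.symm.toMonoidHom) h2.symm.surjective))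
    (e.symm a) (by simpa using ha)
  set L : Subgroup A := L0.comap e.symm.toMonoidHom with hL
  have hBL : B ≤ L := by
    intro b hb
    rw [hL, Subgroup.mem_comap]
    apply hL1
    simpa using hb
  have haL : a ∉ L := by rw [hL, Subgroup.mem_comap]; exact hL2
  have hfi : L.FiniteIndex := by
    refine ⟨?_⟩
    rw [hL, Subgroup.index_comap_of_surjective _ e.symm.surjective]
    exact hL3.index_ne_zero
  have : Finite (A ⧸ L) := Subgroup.finite_quotient_of_finiteIndex
  set M := MM (A ⧸ L) with hM
  have hs2 := psi_surj e B e' M H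
  have hinj : Function.Injective (psi e B e' M) := by
    have h1 : Finite (Fin m → M) := inferInstance
    have h2 : Finite (ι → M) := inferInstance
    have h3 : Nat.card (Fin m → M) = Nat.card (ι → M) := by
      rw [Nat.card_fun, Nat.card_fun, Nat.card_eq_fintype_card (α := ι), heq,
        Nat.card_eq_fintype_card (α := Fin m), Fintype.card_fin]
    exact ((Nat.bijective_iff_surjective_and_card _).2 ⟨hs2, h3⟩).1
  -- the inner derivation
  let v : M := fun x => if x = (QuotientGroup.mk 1 : A ⧸ L) then 1 else 0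
  let F : A → M := fun g => g • v - v
  have hF : IsDer F := by
    intro g h
    show (g * h) • v - v = (g • v - v) + g • (h • v - v)
    rw [mul_smul, smul_sub]
    abel
  have hvL : ∀ g ∈ L, g • v = v := by
    intro g hg
    funext x
    show (if g⁻¹ • x = (QuotientGroup.mk 1 : A ⧸ L) then (1 : ZMod 2) else 0)
      = if x = (QuotientGroup.mk 1 : A ⧸ L) then 1 else 0
    have h1 : g⁻¹ • x = (QuotientGroup.mk 1 : A ⧸ L) ↔ x = (QuotientGroup.mk 1 : A ⧸ L) := by
      rw [inv_smul_eq_iff]
      have h2 : g • (QuotientGroup.mk 1 : A ⧸ L) = QuotientGroup.mk 1 := by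
        show (QuotientGroup.mk (g * 1) : A ⧸ L) = QuotientGroup.mk 1
        rw [QuotientGroup.eq]
        simpa using L.inv_mem hg
      rw [h2]
    simp only [h1]
  have hz : IsDer (fun _ : A => (0 : M)) := by
    intro g h; simp
  have h1 := psi_of_der e B e' M F hF
  have h2 := psi_of_der e B e' M (fun _ => 0) hz
  have h3 : psi e B e' M (fun i => F (e (FreeGroup.of i))) = psi e B e' M (fun _ => 0) := by
    rw [h1, h2]
    funext i
    show (e' (FreeGroup.of i) : A) • v - v = 0
    rw [hvL _ (hBL (e' (FreeGroup.of i)).2), sub_self]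
  have h4 := hinj h3
  have h5 : F = fun _ => 0 := IsDer.ext e hF hz (fun i => congrFun h4 i)
  have h6 : a • v = v := by
    have h7 : a • v - v = 0 := congrFun h5 a
    exact sub_eq_zero.1 h7
  have h8 := congrFun h6 (a • (QuotientGroup.mk 1 : A ⧸ L))
  have h9 : (a • v) (a • (QuotientGroup.mk 1 : A ⧸ L)) = 1 := by
    rw [MM.smul_apply, inv_smul_smul]
    show (if (QuotientGroup.mk 1 : A ⧸ L) = (QuotientGroup.mk 1 : A ⧸ L) then (1 : ZMod 2) else 0) = 1
    simp
  have h10 : v (a • (QuotientGroup.mk 1 : A ⧸ L)) = 0 := by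
    show (if a • (QuotientGroup.mk 1 : A ⧸ L) = (QuotientGroup.mk 1 : A ⧸ L) then (1 : ZMod 2) else 0) = 0
    rw [if_neg]
    intro h
    have h11 : (QuotientGroup.mk (a * 1) : A ⧸ L) = QuotientGroup.mk 1 := h
    rw [QuotientGroup.eq] at h11
    apply haL
    have := L.inv_mem h11
    simpa using this
  rw [h9, h10] at h8
  exact one_ne_zero h8

end Pool.Agent.Helper69.VFX
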