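import Mathlib

/-!
# M. Hall's theorem (MP_266b34_co, project VF)

A finitely generated subgroup of a free group and an element outside it are separated by a subgroup of
finite index.
-/

set_option autoImplicit false

open scoped Classical

namespace Pool.Agent.Helper69.VFX

variable {α : Type*}

/-- the cosets of the suffixes of the words of the elements of `T` -/
def FF (B : Subgroup (FreeGroup α)) (T : Set (FreeGroup α)) : Set (FreeGroup α ⧸ B) :=
  {y | ∃ t ∈ T, ∃ s, s <:+ t.toWord ∧ y = FreeGroup.mk s • (QuotientGroup.mk 1 : FreeGroup α ⧸ B)}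

theorem FF_finite (B : Subgroup (FreeGroup α)) {T : Set (FreeGroup α)} (hT : T.Finite) :
    (FF B T).Finite := by
  have h1 : FF B T ⊆ ⋃ t ∈ T, (fun s : List (α × Bool) =>
      FreeGroup.mk s • (QuotientGroup.mk 1 : FreeGroup α ⧸ B)) '' {s | s ∈ t.toWord.tails} := by
    rintro y ⟨t, ht, s, hs, rfl⟩
    simp only [Set.mem_iUnion]
    exact ⟨t, ht, s, by simpa using hs, rfl⟩
  refine Set.Finite.subset (Set.Finite.biUnion hT ?_) h1
  intro t _
  exact (List.finite_toSet t.toWord.tails).image _

section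
variable {B : Subgroup (FreeGroup α)} (F : Set (FreeGroup α ⧸ B))

/-- the partial permutation of a letter -/
def pe (x : α) : {y : F // FreeGroup.of x • y.1 ∈ F} ≃ {y : F // (FreeGroup.of x)⁻¹ • y.1 ∈ F} where
  toFun y := ⟨⟨FreeGroup.of x • y.1.1, y.2⟩, by simp only [inv_smul_smul]; exact y.1.2⟩
  invFun y := ⟨⟨(FreeGroup.of x)⁻¹ • y.1.1, y.2⟩, by simp only [smul_inv_smul]; exact y.1.2⟩
  left_inv y := by
    apply Subtype.ext; apply Subtype.ext; simp
  right_inv y := by
    apply Subtype.ext; apply Subtype.ext; simp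

/-- the homomorphism to the permutations -/
noncomputable def ph [Fintype F] : FreeGroup α →* Equiv.Perm F :=
  FreeGroup.lift (fun x => (pe F x).extendSubtype)

theorem ext_apply [Fintype F] (x : α) (y : F) (h : FreeGroup.of x • y.1 ∈ F) :
    (pe F x).extendSubtype y = ⟨FreeGroup.of x • y.1, h⟩ := by
  rw [Equiv.extendSubtype_apply_of_mem _ y h]
  rfl

theorem path [Fintype F] (x0 : F) (s : List (α × Bool))
    (h : ∀ t, t <:+ s → FreeGroup.mk t • x0.1 ∈ F) :
    (ph F (FreeGroup.mk s) x0).1 = FreeGroup.mk s • x0.1 := by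
  induction s with
  | nil =>
    have : (FreeGroup.mk ([] : List (α × Bool))) = 1 := rfl
    rw [this]; simp
  | cons a s ih =>
    obtain ⟨x, b⟩ := a
    have h1 : ∀ t, t <:+ s → FreeGroup.mk t • x0.1 ∈ F := fun t ht => h t (ht.trans (List.suffix_cons _ _))
    have ih' := ih h1
    have h2 : FreeGroup.mk ((x, b) :: s) = FreeGroup.mk [(x, b)] * FreeGroup.mk s := by
      rw [FreeGroup.mul_mk]; rfl
    have h3 := h _ (List.suffix_refl _)
    have h4 := h1 _ (List.suffix_refl _)
    rw [h2, mul_smul] at h3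
    rw [h2, mul_smul, map_mul, Equiv.Perm.mul_apply]
    set y := ph F (FreeGroup.mk s) x0 with hy
    cases b with
    | true =>
      have h5 : FreeGroup.mk [(x, true)] = FreeGroup.of x := rfl
      rw [h5] at h3 ⊢
      have h6 : ph F (FreeGroup.of x) = (pe F x).extendSubtype := by simp [ph]
      rw [h6, ext_apply F x y (by rw [ih']; exact h3)]
      show FreeGroup.of x • y.1 = _
      rw [ih']
    | false =>
      have h5 : FreeGroup.mk [(x, false)] = (FreeGroup.of x)⁻¹ := rfl
      rw [h5] at h3 ⊢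
      have h6 : ph F (FreeGroup.of x) = (pe F x).extendSubtype := by simp [ph]
      rw [map_inv, h6]
      set z : F := ⟨(FreeGroup.of x)⁻¹ • FreeGroup.mk s • x0.1, h3⟩ with hz
      have h8 : FreeGroup.of x • z.1 = FreeGroup.mk s • x0.1 := by
        rw [hz]; simp only [smul_inv_smul]
      have h7 : (pe F x).extendSubtype z = y := by
        rw [ext_apply F x z (by rw [h8]; exact h4)]
        apply Subtype.ext
        rw [ih']; exact h8
      have h9 : (pe F x).extendSubtype⁻¹ y = z := by
        rw [Equiv.Perm.inv_eq_iff_eq]; exact h7.symm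
      rw [h9]

end

/-- **M. Hall's theorem** (subgroup separability of free groups) -/
theorem hall (B : Subgroup (FreeGroup α)) (hfg : B.FG) (a : FreeGroup α) (ha : a ∉ B) :
    ∃ L : Subgroup (FreeGroup α), B ≤ L ∧ a ∉ L ∧ L.FiniteIndex := by
  obtain ⟨T, hT⟩ := hfg
  set T' : Set (FreeGroup α) := insert a (T : Set (FreeGroup α)) with hT'
  have hfin : T'.Finite := T.finite_toSet.insert a
  set F := FF B T' with hF
  have : Fintype F := (FF_finite B hfin).fintype
  have hmem : ∀ t ∈ T', ∀ s, s <:+ t.toWord →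
      FreeGroup.mk s • (QuotientGroup.mk 1 : FreeGroup α ⧸ B) ∈ F := by
    intro t ht s hs
    exact ⟨t, ht, s, hs, rfl⟩
  have hx0 : (QuotientGroup.mk 1 : FreeGroup α ⧸ B) ∈ F := by
    have h1 := hmem a (Set.mem_insert _ _) [] (List.nil_suffix)
    have h2 : (FreeGroup.mk ([] : List (α × Bool))) = 1 := rfl
    rwa [h2, one_smul] at h1
  set x0 : F := ⟨_, hx0⟩ with hx0d
  have hpath : ∀ t ∈ T', (ph F t x0).1 = t • x0.1 := by
    intro t ht
    have h1 := path F x0 t.toWord (fun s hs => hmem t ht s hs)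
    rwa [FreeGroup.mk_toWord] at h1
  have hiff : ∀ t : FreeGroup α, t • x0.1 = x0.1 ↔ t ∈ B := by
    intro t
    rw [hx0d]
    show (QuotientGroup.mk (t * 1) : FreeGroup α ⧸ B) = QuotientGroup.mk 1 ↔ t ∈ B
    rw [mul_one, eq_comm, QuotientGroup.eq]
    simp
  refine ⟨(MulAction.stabilizer (Equiv.Perm F) x0).comap (ph F), ?_, ?_, ?_⟩
  · suffices h : (T : Set (FreeGroup α)) ⊆
        ((MulAction.stabilizer (Equiv.Perm F) x0).comap (ph F) : Set (FreeGroup α)) by
      have h0 := (Subgroup.closure_le _).2 h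
      rwa [hT] at h0
    intro t ht
    have h1 := hpath t (Set.mem_insert_of_mem _ ht)
    have h2 : t ∈ B := by rw [← hT]; exact Subgroup.subset_closure ht
    rw [(hiff t).2 h2] at h1
    simp only [Subgroup.coe_comap, Set.mem_preimage, SetLike.mem_coe, MulAction.mem_stabilizer_iff]
    exact Subtype.ext h1
  · intro h
    simp only [Subgroup.mem_comap, MulAction.mem_stabilizer_iff] at h
    have h1 := hpath a (Set.mem_insert _ _)
    have h2 : ph F a x0 = x0 := h
    rw [h2] at h1
    exact ha ((hiff a).1 h1.symm)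
  · have h1 : (ph F).ker ≤ (MulAction.stabilizer (Equiv.Perm F) x0).comap (ph F) := by
      intro g hg
      rw [MonoidHom.mem_ker] at hg
      simp [hg]
    exact Subgroup.finiteIndex_of_le h1

end Pool.Agent.Helper69.VFX
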