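import Pool.Agent.Helper69.VFX.Der
import Pool.Agent.Helper27.VF.Goals

set_option autoImplicit false

namespace Pool.Agent.Helper69.VFX

universe u

theorem hal : Pool.Agent.Helper27.VF.HalStmt := by
  intro n B hfg hB
  obtain ⟨a, ha⟩ : ∃ a, a ∉ B := by
    by_contra h
    push Not at h
    exact hB ((Subgroup.eq_top_iff' B).2 h)
  obtain ⟨L, h1, h2, h3⟩ := hall B hfg a ha
  exact ⟨L, h1, fun h => h2 (by rw [h]; trivial), h3⟩

theorem rnk : Pool.Agent.Helper27.VF.RnkStmt.{u} := by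
  intro m A _ ⟨e⟩ B hB H
  exact rank_lt e B hB H

end Pool.Agent.Helper69.VFX
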